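import Pool.Agent.Helper36_XQ.Stmt4

/-!
Squad XQ, part A4, module CNV: Laplace transform of a triple convolution (Tonelli).
-/

set_option autoImplicit false

namespace Pool.Agent.XQ.K4.H34

open MeasureTheory Complex Filter Topology ProbabilityTheory Pool.Agent.H16Iso Pool.Agent.H62T
  Pool.Agent.H16F Pool.Agent.H38KL Pool.Agent.AEU Pool.Agent.XQ.K4
open scoped ENNReal NNReal

lemma tri {α β γ : Type} [MeasurableSpace α] [MeasurableSpace β] [MeasurableSpace γ]
    (μ : Measure α) (ν : Measure β) (la : Measure γ) [SFinite μ] [SFinite ν] [SFinite la]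
    (f : α × β × γ → ℝ≥0∞) (hf : Measurable f) :
    ∫⁻ a, ∫⁻ b, ∫⁻ c, f (a, b, c) ∂la ∂ν ∂μ = ∫⁻ p, f p ∂(μ.prod (ν.prod la)) := by
  rw [lintegral_prod _ hf.aemeasurable]
  refine lintegral_congr fun a => ?_
  have h2 : Measurable fun q : β × γ => f (a, q) := hf.comp measurable_prodMk_left
  rw [lintegral_prod _ h2.aemeasurable]

lemma kM_meas (u : Fin 4 → ℂ) (h : Fin 4 → ℝ) (M E : Finset (Fin 4)) :
    Measurable (fun p : ℝ × ℂ × ℂ => kME u h M E p.1 p.2.1 p.2.2) := by
  unfold kME pB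
  refine Finset.measurable_fun_sum _ fun B _ => ?_
  exact (H8.pD_meas (dm_open u h _)).const_mul _

lemma kM_meas_comp (u : Fin 4 → ℂ) (h : Fin 4 → ℝ) (M E : Finset (Fin 4)) {α : Type*}
    [MeasurableSpace α] {f : α → ℝ} {g k : α → ℂ} (hf : Measurable f) (hg : Measurable g)
    (hk : Measurable k) : Measurable fun a => kME u h M E (f a) (g a) (k a) := by
  have := Measurable.comp (g := fun p : ℝ × ℂ × ℂ => kME u h M E p.1 p.2.1 p.2.2)
    (f := fun a => (f a, g a, k a)) (kM_meas u h M E) (hf.prodMk (hg.prodMk hk))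
  exact this

/-- the integrand of `Q3` -/
noncomputable def KK (W : ℝ → ℝ → ℝ → ℝ≥0∞) (t s1 s2 : ℝ) : ℝ≥0∞ :=
  if 0 < s1 ∧ 0 < s2 ∧ 0 < t - s1 - s2 then W s1 s2 (t - s1 - s2) else 0

lemma q3_eq (W : ℝ → ℝ → ℝ → ℝ≥0∞) (t : ℝ) :
    Q3 W t = ∫⁻ s1, ∫⁻ s2, KK W t s1 s2 := by
  unfold Q3
  rw [← lintegral_indicator measurableSet_Ioo]
  refine lintegral_congr fun s1 => ?_
  by_cases h1 : s1 ∈ Set.Ioo 0 t
  · rw [Set.indicator_of_mem h1, ← lintegral_indicator measurableSet_Ioo]
    refine lintegral_congr fun s2 => ?_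
    unfold KK
    by_cases h2 : s2 ∈ Set.Ioo 0 (t - s1)
    · rw [Set.indicator_of_mem h2, if_pos ⟨h1.1, h2.1, by linarith [h2.2]⟩]
    · rw [Set.indicator_of_notMem h2, if_neg]
      rintro ⟨-, h3, h4⟩
      exact h2 ⟨h3, by linarith⟩
  · rw [Set.indicator_of_notMem h1]
    have : ∀ s2, KK W t s1 s2 = 0 := by
      intro s2
      unfold KK
      rw [if_neg]
      rintro ⟨h2, h3, h4⟩
      exact h1 ⟨h2, by linarith⟩
    simp [this]

lemma kk_meas (W : ℝ → ℝ → ℝ → ℝ≥0∞)
    (hW : Measurable (fun p : ℝ × ℝ × ℝ => W p.1 p.2.1 p.2.2)) {α : Type*} [MeasurableSpace α]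
    {f g k : α → ℝ} (hf : Measurable f) (hg : Measurable g) (hk : Measurable k) :
    Measurable fun a => KK W (f a) (g a) (k a) := by
  unfold KK
  refine Measurable.ite ?_ ?_ measurable_const
  · refine (measurableSet_lt measurable_const hg).inter ((measurableSet_lt measurable_const hk).inter
      (measurableSet_lt measurable_const ((hf.sub hg).sub hk)))
  · have := Measurable.comp (g := fun p : ℝ × ℝ × ℝ => W p.1 p.2.1 p.2.2)
      (f := fun a => (g a, k a, f a - g a - k a)) hW (hg.prodMk (hk.prodMk ((hf.sub hg).sub hk)))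
    exact this

/-- the exponential -/
noncomputable def ex (κ t : ℝ) : ℝ≥0∞ := ENNReal.ofReal (Real.exp (-(κ ^ 2 * t)))

lemma ex_meas (κ : ℝ) {α : Type*} [MeasurableSpace α] {f : α → ℝ} (hf : Measurable f) :
    Measurable fun a => ex κ (f a) := by
  unfold ex
  exact (Real.measurable_exp.comp (hf.const_mul _).neg).ennreal_ofReal

lemma ex_add (κ a b c : ℝ) : ex κ (a + b + c) = ex κ a * ex κ b * ex κ c := by
  unfold ex
  rw [← ENNReal.ofReal_mul (Real.exp_nonneg _), ← ENNReal.ofReal_mul (by positivity),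
    ← Real.exp_add, ← Real.exp_add]
  congr 2
  ring

lemma conv (W : ℝ → ℝ → ℝ → ℝ≥0∞)
    (hW : Measurable (fun p : ℝ × ℝ × ℝ => W p.1 p.2.1 p.2.2)) (κ : ℝ) :
    ∫⁻ t in Set.Ioi (0 : ℝ), ex κ t * Q3 W t
      = ∫⁻ s1 in Set.Ioi (0 : ℝ), ∫⁻ s2 in Set.Ioi (0 : ℝ), ∫⁻ s3 in Set.Ioi (0 : ℝ),
        ex κ (s1 + s2 + s3) * W s1 s2 s3 := by
  have hm3 : Measurable (fun p : ℝ × ℝ × ℝ => ex κ p.1 * KK W p.1 p.2.1 p.2.2) :=
    (ex_meas κ measurable_fst).mul (kk_meas W hW measurable_fst (measurable_fst.comp measurable_snd)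
      (measurable_snd.comp measurable_snd))
  have e1 : ∫⁻ t in Set.Ioi (0 : ℝ), ex κ t * Q3 W t
      = ∫⁻ t, ∫⁻ s1, ∫⁻ s2, ex κ t * KK W t s1 s2 := by
    rw [← lintegral_indicator measurableSet_Ioi]
    refine lintegral_congr fun t => ?_
    have e : ex κ t * Q3 W t = ∫⁻ s1, ∫⁻ s2, ex κ t * KK W t s1 s2 := by
      rw [q3_eq, ← lintegral_const_mul _ (by
        exact Measurable.lintegral_prod_right' (f := fun p : ℝ × ℝ => KK W t p.1 p.2)
          (kk_meas W hW measurable_const measurable_fst measurable_snd))]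
      refine lintegral_congr fun s1 => ?_
      have h2 : Measurable fun s2 => KK W t s1 s2 :=
        kk_meas W hW measurable_const measurable_const measurable_id
      rw [lintegral_const_mul _ h2]
    by_cases ht : t ∈ Set.Ioi (0 : ℝ)
    · rw [Set.indicator_of_mem ht, e]
    · rw [Set.indicator_of_notMem ht]
      have : ∀ s1 s2, ex κ t * KK W t s1 s2 = 0 := by
        intro s1 s2
        unfold KK
        rw [if_neg, mul_zero]
        rintro ⟨h2, h3, h4⟩
        exact ht (by simp only [Set.mem_Ioi]; linarith)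
      simp [this]
  have e2 : ∫⁻ t, ∫⁻ s1, ∫⁻ s2, ex κ t * KK W t s1 s2
      = ∫⁻ s1, ∫⁻ s2, ∫⁻ t, ex κ t * KK W t s1 s2 := by
    rw [lintegral_lintegral_swap (f := fun t s1 => ∫⁻ s2, ex κ t * KK W t s1 s2)]
    · refine lintegral_congr fun s1 => ?_
      rw [lintegral_lintegral_swap (f := fun t s2 => ex κ t * KK W t s1 s2)]
      exact ((ex_meas κ measurable_fst).mul (kk_meas W hW measurable_fst measurable_const
        measurable_snd)).aemeasurable
    · refine Measurable.aemeasurable ?_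
      exact Measurable.lintegral_prod_right'
        (f := fun p : (ℝ × ℝ) × ℝ => ex κ p.1.1 * KK W p.1.1 p.1.2 p.2)
        ((ex_meas κ (measurable_fst.comp measurable_fst)).mul (kk_meas W hW
          (measurable_fst.comp measurable_fst) (measurable_snd.comp measurable_fst) measurable_snd))
  rw [e1, e2, ← lintegral_indicator measurableSet_Ioi]
  refine lintegral_congr fun s1 => ?_
  by_cases h1 : s1 ∈ Set.Ioi (0 : ℝ)
  · rw [Set.indicator_of_mem h1, ← lintegral_indicator measurableSet_Ioi]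
    refine lintegral_congr fun s2 => ?_
    by_cases h2 : s2 ∈ Set.Ioi (0 : ℝ)
    · rw [Set.indicator_of_mem h2, ← lintegral_indicator measurableSet_Ioi]
      rw [← lintegral_add_right_eq_self _ (s1 + s2)]
      refine lintegral_congr fun s3 => ?_
      have e3 : s3 + (s1 + s2) - s1 - s2 = s3 := by ring
      have e4 : s3 + (s1 + s2) = s1 + s2 + s3 := by ring
      unfold KK
      rw [e3, e4]
      by_cases h3 : s3 ∈ Set.Ioi (0 : ℝ)
      · rw [Set.indicator_of_mem h3, if_pos ⟨h1, h2, h3⟩]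
      · rw [Set.indicator_of_notMem h3, if_neg (fun h => h3 h.2.2), mul_zero]
    · rw [Set.indicator_of_notMem h2]
      have : ∀ t, ex κ t * KK W t s1 s2 = 0 := by
        intro t
        unfold KK
        rw [if_neg (fun h => h2 h.2.1), mul_zero]
      simp [this]
  · rw [Set.indicator_of_notMem h1]
    have : ∀ s2 t, ex κ t * KK W t s1 s2 = 0 := by
      intro s2 t
      unfold KK
      rw [if_neg (fun h => h1 h.1), mul_zero]
    simp [this]

/-- product of three transforms -/
lemma prod3 (a b c : ℝ → ℝ≥0∞) (ha : Measurable a) (hb : Measurable b) (hc : Measurable c)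
    (μ : Measure ℝ) :
    ∫⁻ s1, ∫⁻ s2, ∫⁻ s3, a s1 * b s2 * c s3 ∂μ ∂μ ∂μ
      = (∫⁻ s, a s ∂μ) * (∫⁻ s, b s ∂μ) * ∫⁻ s, c s ∂μ := by
  have e1 : ∀ s1 s2, ∫⁻ s3, a s1 * b s2 * c s3 ∂μ = a s1 * b s2 * ∫⁻ s, c s ∂μ := by
    intro s1 s2
    rw [lintegral_const_mul _ hc]
  simp only [e1]
  have e2 : ∀ s1, ∫⁻ s2, a s1 * b s2 * ∫⁻ s, c s ∂μ ∂μ
      = a s1 * ((∫⁻ s, b s ∂μ) * ∫⁻ s, c s ∂μ) := by
    intro s1
    rw [lintegral_mul_const _ (hb.const_mul _), lintegral_const_mul _ hb, mul_assoc]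
  simp only [e2]
  rw [lintegral_mul_const _ ha, mul_assoc]

section main

variable (u : Fin 4 → ℂ) (h : Fin 4 → ℝ) (M E : Fin 3 → Finset (Fin 4)) (S : Fin 3 → Set ℂ)

/-- the integrand of `W3` -/
noncomputable def Ph (s : ℝ × ℝ × ℝ) (p : ℂ × ℂ × ℂ) : ℝ≥0∞ :=
  ENNReal.ofReal (kME u h (M 0) (E 0) s.1 p.1 p.2.1)
    * ENNReal.ofReal (kME u h (M 1) (E 1) s.2.1 p.2.1 p.2.2)
      * ENNReal.ofReal (kME u h (M 2) (E 2) s.2.2 p.2.2 p.1)

lemma Ph_meas {α : Type*} [MeasurableSpace α] {f : α → ℝ × ℝ × ℝ} {g : α → ℂ × ℂ × ℂ}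
    (hf : Measurable f) (hg : Measurable g) : Measurable fun a => Ph u h M E (f a) (g a) := by
  unfold Ph
  have f1 := measurable_fst.comp hf
  have f2 := measurable_fst.comp (measurable_snd.comp hf)
  have f3 := measurable_snd.comp (measurable_snd.comp hf)
  have g1 := measurable_fst.comp hg
  have g2 := measurable_fst.comp (measurable_snd.comp hg)
  have g3 := measurable_snd.comp (measurable_snd.comp hg)
  exact ((kM_meas_comp u h _ _ f1 g1 g2).ennreal_ofReal.mul
    (kM_meas_comp u h _ _ f2 g2 g3).ennreal_ofReal).mul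
    (kM_meas_comp u h _ _ f3 g3 g1).ennreal_ofReal

/-- the measure of the windows -/
noncomputable def muS : Measure (ℂ × ℂ × ℂ) :=
  (volume.restrict (S 0)).prod ((volume.restrict (S 1)).prod (volume.restrict (S 2)))

instance : SFinite (muS S) := by
  unfold muS
  infer_instance

lemma w3_eq (s1 s2 s3 : ℝ) :
    W3 u h M E S s1 s2 s3 = ∫⁻ p, Ph u h M E (s1, s2, s3) p ∂(muS S) := by
  unfold W3 muS
  rw [← tri _ _ _ (fun p => Ph u h M E (s1, s2, s3) p) (Ph_meas u h M E measurable_const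
    measurable_id)]
  rfl

lemma w3_meas : Measurable (fun p : ℝ × ℝ × ℝ => W3 u h M E S p.1 p.2.1 p.2.2) := by
  have : (fun p : ℝ × ℝ × ℝ => W3 u h M E S p.1 p.2.1 p.2.2)
      = fun s => ∫⁻ p, Ph u h M E s p ∂(muS S) := by
    funext s
    exact w3_eq u h M E S s.1 s.2.1 s.2.2
  rw [this]
  exact Measurable.lintegral_prod_right' (f := fun q : (ℝ × ℝ × ℝ) × (ℂ × ℂ × ℂ) =>
    Ph u h M E q.1 q.2) (Ph_meas u h M E measurable_fst measurable_snd)

lemma lh_eq (k : ℝ → ℂ → ℂ → ℝ) (κ : ℝ) (x y : ℂ) :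
    Lh k κ x y = ∫⁻ t in Set.Ioi (0 : ℝ), ex κ t * ENNReal.ofReal (k t x y) := by
  unfold Lh ex
  refine lintegral_congr fun t => ?_
  rw [ENNReal.ofReal_mul (Real.exp_nonneg _)]

end main

theorem cnv : CnvStatement := by
  intro u h M E S κ _ _ _
  have hW := w3_meas u h M E S
  refine ⟨hW, ?_, fun Mt Et => ?_, ?_⟩
  · have : (fun t => Q3 (W3 u h M E S) t) = fun t => ∫⁻ s1, ∫⁻ s2, KK (W3 u h M E S) t s1 s2 := by
      funext t
      exact q3_eq _ t
    rw [this]
    have h2 : Measurable (fun p : ℝ × ℝ => ∫⁻ s2, KK (W3 u h M E S) p.1 p.2 s2) :=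
      Measurable.lintegral_prod_right' (f := fun q : (ℝ × ℝ) × ℝ =>
        KK (W3 u h M E S) q.1.1 q.1.2 q.2) (kk_meas _ hW (measurable_fst.comp measurable_fst)
          (measurable_snd.comp measurable_fst) measurable_snd)
    exact Measurable.lintegral_prod_right' h2
  · unfold Vt
    exact Measurable.lintegral_prod_right' (f := fun p : ℝ × ℂ =>
      ENNReal.ofReal (kME u h Mt Et p.1 p.2 p.2))
      (kM_meas_comp u h _ _ measurable_fst measurable_snd measurable_snd).ennreal_ofReal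
  · have e0 := conv (W3 u h M E S) hW κ
    change ∫⁻ t in Set.Ioi (0 : ℝ), ex κ t * Q3 (W3 u h M E S) t = _
    rw [e0]
    set μ : Measure ℝ := volume.restrict (Set.Ioi (0 : ℝ)) with hμ
    -- one integral over the durations
    have e1 : ∫⁻ s1, ∫⁻ s2, ∫⁻ s3, ex κ (s1 + s2 + s3) * W3 u h M E S s1 s2 s3 ∂μ ∂μ ∂μ
        = ∫⁻ s, ex κ (s.1 + s.2.1 + s.2.2) * ∫⁻ p, Ph u h M E s p ∂(muS S) ∂(μ.prod (μ.prod μ)) := by
      rw [← tri μ μ μ (fun s : ℝ × ℝ × ℝ => ex κ (s.1 + s.2.1 + s.2.2)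
        * ∫⁻ p, Ph u h M E s p ∂(muS S))]
      · refine lintegral_congr fun s1 => lintegral_congr fun s2 => lintegral_congr fun s3 => ?_
        rw [w3_eq]
      · refine (ex_meas κ ((measurable_fst.add (measurable_fst.comp measurable_snd)).add
          (measurable_snd.comp measurable_snd))).mul ?_
        exact Measurable.lintegral_prod_right' (f := fun q : (ℝ × ℝ × ℝ) × (ℂ × ℂ × ℂ) =>
          Ph u h M E q.1 q.2) (Ph_meas u h M E measurable_fst measurable_snd)
    have e2 : ∫⁻ s, ex κ (s.1 + s.2.1 + s.2.2) * ∫⁻ p, Ph u h M E s p ∂(muS S)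
        ∂(μ.prod (μ.prod μ))
        = ∫⁻ p, ∫⁻ s, ex κ (s.1 + s.2.1 + s.2.2) * Ph u h M E s p ∂(μ.prod (μ.prod μ))
          ∂(muS S) := by
      rw [lintegral_lintegral_swap (f := fun (p : ℂ × ℂ × ℂ) (s : ℝ × ℝ × ℝ) =>
        ex κ (s.1 + s.2.1 + s.2.2) * Ph u h M E s p)]
      · refine lintegral_congr fun s => ?_
        have h2 : Measurable fun p => Ph u h M E s p :=
          Ph_meas u h M E measurable_const measurable_id
        rw [lintegral_const_mul _ h2]
      · refine Measurable.aemeasurable ?_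
        refine (ex_meas κ (((measurable_fst.comp measurable_snd).add
          (measurable_fst.comp (measurable_snd.comp measurable_snd))).add
          (measurable_snd.comp (measurable_snd.comp measurable_snd)))).mul
          (Ph_meas u h M E measurable_snd measurable_fst)
    rw [e1, e2]
    unfold P3 muS
    -- the right side
    set ν0 : Measure ℂ := volume.restrict (S 0)
    set ν1 : Measure ℂ := volume.restrict (S 1)
    set ν2 : Measure ℂ := volume.restrict (S 2)
    rw [← tri ν0 ν1 ν2 (fun p => ∫⁻ s, ex κ (s.1 + s.2.1 + s.2.2) * Ph u h M E s p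
      ∂(μ.prod (μ.prod μ)))]
    · refine lintegral_congr fun x => lintegral_congr fun z => lintegral_congr fun y => ?_
      rw [lh_eq, lh_eq, lh_eq]
      rw [← prod3 (fun t => ex κ t * ENNReal.ofReal (kME u h (M 0) (E 0) t x z))
        (fun t => ex κ t * ENNReal.ofReal (kME u h (M 1) (E 1) t z y))
        (fun t => ex κ t * ENNReal.ofReal (kME u h (M 2) (E 2) t y x))
        ((ex_meas κ measurable_id).mul (kM_meas_comp u h _ _ measurable_id measurable_const
          measurable_const).ennreal_ofReal)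
        ((ex_meas κ measurable_id).mul (kM_meas_comp u h _ _ measurable_id measurable_const
          measurable_const).ennreal_ofReal)
        ((ex_meas κ measurable_id).mul (kM_meas_comp u h _ _ measurable_id measurable_const
          measurable_const).ennreal_ofReal)]
      rw [← tri μ μ μ (fun s : ℝ × ℝ × ℝ => ex κ (s.1 + s.2.1 + s.2.2)
        * Ph u h M E s (x, z, y))]
      · refine lintegral_congr fun s1 => lintegral_congr fun s2 => lintegral_congr fun s3 => ?_
        simp only [Ph]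
        rw [ex_add]
        ring
      · exact (ex_meas κ ((measurable_fst.add (measurable_fst.comp measurable_snd)).add
          (measurable_snd.comp measurable_snd))).mul (Ph_meas u h M E measurable_id
            measurable_const)
    · exact Measurable.lintegral_prod_right' (f := fun q : (ℂ × ℂ × ℂ) × (ℝ × ℝ × ℝ) =>
        ex κ (q.2.1 + q.2.2.1 + q.2.2.2) * Ph u h M E q.2 q.1)
        ((ex_meas κ (((measurable_fst.comp measurable_snd).add
          (measurable_fst.comp (measurable_snd.comp measurable_snd))).add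
          (measurable_snd.comp (measurable_snd.comp measurable_snd)))).mul
          (Ph_meas u h M E measurable_snd measurable_fst))

end Pool.Agent.XQ.K4.H34
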