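import Pool.Agent.Helper36_XQ.Stmt4

/-!
Squad XQ, part A4, module LCC: locality from two qualitative conditions (compactness).
-/

set_option autoImplicit false

namespace Pool.Agent.XQ.K4.H34

open MeasureTheory Complex Filter Topology ProbabilityTheory Pool.Agent.H16Iso Pool.Agent.H62T
  Pool.Agent.H16F Pool.Agent.H38KL Pool.Agent.AEU Pool.Agent.XQ.K4
open scoped ENNReal NNReal

lemma ipc (a : ℂ) : Continuous fun x : ℂ => ip a x := ip_cont a

lemma ip_rmul (a : ℂ) (r : ℝ) (x : ℂ) : ip a ((r : ℂ) * x) = r * ip a x := by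
  simp only [ip, Complex.mul_re, Complex.mul_im, Complex.ofReal_re, Complex.ofReal_im]
  ring

lemma ip_sub (a x y : ℂ) : ip a (x - y) = ip a x - ip a y := by
  simp only [ip, Complex.sub_re, Complex.sub_im]
  ring

lemma ip_le_norm (a x : ℂ) (ha : ‖a‖ = 1) : |ip a x| ≤ ‖x‖ := by
  have h : (ip a x) ^ 2 ≤ ‖a‖ ^ 2 * ‖x‖ ^ 2 := by
    rw [Complex.sq_norm, Complex.sq_norm, Complex.normSq_apply, Complex.normSq_apply]
    simp only [ip]
    nlinarith [sq_nonneg (a.re * x.im - a.im * x.re)]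
  rw [ha] at h
  have : (ip a x) ^ 2 ≤ ‖x‖ ^ 2 := by simpa using h
  exact abs_le_of_sq_le_sq this (norm_nonneg x)

/-- weighted sum of positive parts -/
noncomputable def psi (u : Fin 4 → ℂ) (h : Fin 4 → ℝ) (Mt Et : Finset (Fin 4)) (x : ℂ) : ℝ :=
  (∑ s ∈ Mt, max 0 (h s - ip (u s) x)) + ∑ s ∈ Et, max 0 (ip (u s) x - h s)

lemma psi_cont (u : Fin 4 → ℂ) (h : Fin 4 → ℝ) (Mt Et : Finset (Fin 4)) :
    Continuous (psi u h Mt Et) := by
  unfold psi
  refine Continuous.add (continuous_finset_sum _ fun s _ => ?_)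
    (continuous_finset_sum _ fun s _ => ?_)
  · exact continuous_const.max (continuous_const.sub (ipc _))
  · exact continuous_const.max ((ipc _).sub continuous_const)

lemma psi_pos (u : Fin 4 → ℂ) (h : Fin 4 → ℝ) (Mt Et : Finset (Fin 4)) (x : ℂ)
    (hx : (∃ s ∈ Mt, ip (u s) x < h s) ∨ ∃ s ∈ Et, h s < ip (u s) x) : 0 < psi u h Mt Et x := by
  unfold psi
  have h1 : 0 ≤ ∑ s ∈ Mt, max 0 (h s - ip (u s) x) :=
    Finset.sum_nonneg fun s _ => le_max_left _ _
  have h2 : 0 ≤ ∑ s ∈ Et, max 0 (ip (u s) x - h s) :=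
    Finset.sum_nonneg fun s _ => le_max_left _ _
  rcases hx with ⟨s, hs, hs'⟩ | ⟨s, hs, hs'⟩
  · have : 0 < ∑ s ∈ Mt, max 0 (h s - ip (u s) x) :=
      lt_of_lt_of_le (lt_of_lt_of_le (sub_pos.2 hs') (le_max_right 0 _))
        (Finset.single_le_sum (f := fun s => max 0 (h s - ip (u s) x))
          (fun i _ => le_max_left _ _) hs)
    linarith
  · have : 0 < ∑ s ∈ Et, max 0 (ip (u s) x - h s) :=
      lt_of_lt_of_le (lt_of_lt_of_le (sub_pos.2 hs') (le_max_right 0 _))
        (Finset.single_le_sum (f := fun s => max 0 (ip (u s) x - h s))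
          (fun i _ => le_max_left _ _) hs)
    linarith

lemma card4 (B : Finset (Fin 4)) : (B.card : ℝ) ≤ 4 := by
  have := Finset.card_le_univ B
  simp only [Fintype.card_fin] at this
  exact_mod_cast this

/-- the geometric facts on a configuration -/
lemma facts (hP : PolStatement) (u : Fin 4 → ℂ) (h : Fin 4 → ℝ) (Mt Et : Finset (Fin 4))
    (hu : ∀ s, ‖u s‖ = 1) (n : ℕ) [NeZero n] (x : Fin n → ℂ) (A : Fin n → Finset (Fin 4))
    (hV : Vis Mt Et A) (hC : Cns u h x A) :
    0 ≤ Ln u h x A ∧ (∀ s ∈ Mt, h s - 2 * Ln u h x A ≤ ip (u s) (x 0)) ∧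
      ∀ s ∈ Et, ip (u s) (x 0) < h s := by
  obtain ⟨-, P2, -, -, P5⟩ := hP
  obtain ⟨hPl, hvis, -⟩ := P5 u h n x A hu
  have hL : 0 ≤ Ln u h x A := Finset.sum_nonneg fun j _ => bl_nonneg u h _ _ _
  refine ⟨hL, fun s hs => ?_, fun s hs => ?_⟩
  · obtain ⟨j, hj⟩ := hV.1 s hs
    have h1 := hvis j s hj
    have h2 : bl u h (A j) (x j) (x (j + 1)) ≤ Ln u h x A :=
      Finset.single_le_sum (f := fun j => bl u h (A j) (x j) (x (j + 1)))
        (fun i _ => bl_nonneg u h _ _ _) (Finset.mem_univ j)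
    have h3 := P2 n x 0 j 0
    have h4 : ‖x 0 - x j‖ ≤ Ln u h x A := by
      have : ‖x j - x 0‖ = ‖x 0 - x j‖ := norm_sub_rev _ _
      have h0 : ‖x 0 - x 0‖ = 0 := by simp
      have := norm_nonneg (x 0 - x j)
      linarith
    have h5 := (abs_le.1 (ip_le_norm (u s) (x 0 - x j) (hu s))).1
    rw [ip_sub] at h5
    linarith
  · have h0 : s ∉ A 0 := fun h' => (Finset.disjoint_left.1 (hV.2 0)) h' hs
    exact (hC 0 s h0).1

theorem lcc (hP : PolStatement) : LccStatement := by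
  intro u h Mt Et hu h1 h2
  -- the homogeneous function on the unit sphere
  obtain ⟨c, hc, hcφ⟩ : ∃ c : ℝ, 0 < c ∧ ∀ x : ℂ, c * ‖x‖ ≤ psi u 0 Mt Et x := by
    obtain ⟨y, hy, hmin⟩ := (isCompact_sphere (0 : ℂ) 1).exists_isMinOn
      (by exact ⟨1, by simp⟩) (psi_cont u 0 Mt Et).continuousOn
    have hy0 : y ≠ 0 := by
      rintro rfl
      simp at hy
    refine ⟨psi u 0 Mt Et y, psi_pos u 0 Mt Et y (by simpa using h1 y hy0), fun x => ?_⟩
    rcases eq_or_ne x 0 with rfl | hx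
    · simp [psi, ip]
    · have hn : 0 < ‖x‖ := norm_pos_iff.2 hx
      have hxs : ((‖x‖⁻¹ : ℝ) : ℂ) * x ∈ Metric.sphere (0 : ℂ) 1 := by
        simp only [mem_sphere_iff_norm, sub_zero, norm_mul, Complex.norm_real, norm_inv, norm_norm]
        exact inv_mul_cancel₀ hn.ne'
      have h3 := hmin hxs
      have h4 : psi u 0 Mt Et (((‖x‖⁻¹ : ℝ) : ℂ) * x) = ‖x‖⁻¹ * psi u 0 Mt Et x := by
        unfold psi
        simp only [ip_rmul, Pi.zero_apply, zero_sub, sub_zero]
        rw [mul_add, Finset.mul_sum, Finset.mul_sum]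
        congr 1
        · refine Finset.sum_congr rfl fun s _ => ?_
          rw [← mul_neg, mul_max_of_nonneg _ _ (inv_nonneg.2 hn.le), mul_zero]
        · refine Finset.sum_congr rfl fun s _ => ?_
          rw [mul_max_of_nonneg _ _ (inv_nonneg.2 hn.le), mul_zero]
      have h5 : psi u 0 Mt Et y ≤ ‖x‖⁻¹ * psi u 0 Mt Et x := by
        rw [← h4]
        exact h3
      calc psi u 0 Mt Et y * ‖x‖ ≤ (‖x‖⁻¹ * psi u 0 Mt Et x) * ‖x‖ :=
            mul_le_mul_of_nonneg_right h5 hn.le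
        _ = psi u 0 Mt Et x := by
            field_simp
  set H : ℝ := ∑ s, |h s| with hH
  have hH0 : 0 ≤ H := Finset.sum_nonneg fun s _ => abs_nonneg _
  have hHs : ∀ s, |h s| ≤ H := fun s =>
    Finset.single_le_sum (f := fun s => |h s|) (fun i _ => abs_nonneg _) (Finset.mem_univ s)
  -- the positive function on a ball
  set ρ : ℝ := (8 + 8 * H) / c with hρ
  have hρ0 : 0 < ρ := by positivity
  obtain ⟨m, hm, hmψ⟩ : ∃ m : ℝ, 0 < m ∧ ∀ x : ℂ, ‖x‖ ≤ 2 * ρ → m ≤ psi u h Mt Et x := by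
    obtain ⟨y, hy, hmin⟩ := (isCompact_closedBall (0 : ℂ) (2 * ρ)).exists_isMinOn
      ⟨0, by simp [hρ0.le]⟩ (psi_cont u h Mt Et).continuousOn
    refine ⟨psi u h Mt Et y, psi_pos u h Mt Et y ?_, fun x hx => ?_⟩
    · by_contra hcon
      push Not at hcon
      exact h2 ⟨y, hcon⟩
    · exact hmin (by simpa using hx)
  refine ⟨ρ + 1 + 8 / m, by positivity, ?_⟩
  intro n _ x A hV hC
  obtain ⟨hL, hM, hE⟩ := facts hP u h Mt Et hu n x A hV hC
  set L := Ln u h x A with hLdef
  have hx0 : ‖x 0‖ ≤ ρ * (1 + L) := by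
    have h3 := hcφ (x 0)
    have h4 : psi u 0 Mt Et (x 0) ≤ 8 * L + 8 * H := by
      unfold psi
      simp only [Pi.zero_apply, zero_sub, sub_zero]
      have e1 : ∑ s ∈ Mt, max 0 (-ip (u s) (x 0)) ≤ ∑ s ∈ Mt, (2 * L + H) := by
        refine Finset.sum_le_sum fun s hs => max_le (by positivity) ?_
        have := hM s hs
        have := (abs_le.1 (hHs s)).1
        linarith
      have e2 : ∑ s ∈ Et, max 0 (ip (u s) (x 0)) ≤ ∑ s ∈ Et, H := by
        refine Finset.sum_le_sum fun s hs => max_le hH0 ?_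
        have := hE s hs
        have := (abs_le.1 (hHs s)).2
        linarith
      rw [Finset.sum_const, nsmul_eq_mul] at e1 e2
      have c1 : (Mt.card : ℝ) * (2 * L + H) ≤ 4 * (2 * L + H) :=
        mul_le_mul_of_nonneg_right (card4 Mt) (by positivity)
      have c2 : (Et.card : ℝ) * H ≤ 4 * H := mul_le_mul_of_nonneg_right (card4 Et) hH0
      linarith
    rw [hρ, div_mul_eq_mul_div, le_div_iff₀ hc]
    nlinarith
  constructor
  · refine hx0.trans (mul_le_mul_of_nonneg_right ?_ (by positivity))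
    have : 0 < 8 / m := by positivity
    linarith
  · have hR1 : 1 ≤ ρ + 1 + 8 / m := by
      have : 0 < 8 / m := by positivity
      linarith
    rcases le_or_gt 1 L with h1L | h1L
    · refine le_trans ?_ h1L
      rw [div_le_one (by positivity)]
      exact hR1
    · -- then `x 0` is in the ball
      have hL8 : m / 8 ≤ L := by
        have hb : ‖x 0‖ ≤ 2 * ρ := by
          refine hx0.trans ?_
          nlinarith
        have h3 := hmψ (x 0) hb
        have h4 : psi u h Mt Et (x 0) ≤ 8 * L := by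
          unfold psi
          have e1 : ∑ s ∈ Mt, max 0 (h s - ip (u s) (x 0)) ≤ ∑ s ∈ Mt, (2 * L) := by
            refine Finset.sum_le_sum fun s hs => max_le (by positivity) ?_
            have := hM s hs
            linarith
          have e2 : ∑ s ∈ Et, max 0 (ip (u s) (x 0) - h s) ≤ 0 := by
            refine Finset.sum_nonpos fun s hs => max_le le_rfl ?_
            have := hE s hs
            linarith
          rw [Finset.sum_const, nsmul_eq_mul] at e1
          have c1 : (Mt.card : ℝ) * (2 * L) ≤ 4 * (2 * L) :=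
            mul_le_mul_of_nonneg_right (card4 Mt) (by positivity)
          linarith
        linarith
      have hR8 : 8 / m ≤ ρ + 1 + 8 / m := by linarith
      calc 1 / (ρ + 1 + 8 / m) ≤ 1 / (8 / m) := one_div_le_one_div_of_le (by positivity) hR8
        _ = m / 8 := by rw [one_div_div]
        _ ≤ L := hL8

end Pool.Agent.XQ.K4.H34
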