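import Pool.Agent.Helper36_XQ.Stmt4

/-!
Squad XQ, part A4, module NR3: nearly minimal closed polygons are near the segment.
-/

set_option autoImplicit false

namespace Pool.Agent.XQ.K4.H34

open MeasureTheory Complex Filter Topology ProbabilityTheory Pool.Agent.H16Iso Pool.Agent.H62T
  Pool.Agent.H16F Pool.Agent.H38KL Pool.Agent.AEU Pool.Agent.XQ.K4
open scoped ENNReal NNReal

/-- choice of the two indices of a corner -/
lemma pick {n : ℕ} (x : Fin n → ℂ) (a b : ℝ) (hab : a + b < Real.pi) (δ : ℝ) (l1 l2 : Fin 4)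
    (hne : l1 ≠ l2) (u : Fin 4 → ℂ) (h : Fin 4 → ℝ) (M E : Finset (Fin 4))
    (hM : ∀ s, s ∈ M ↔ (s = l1 ∧ b < Real.pi / 2) ∨ (s = l2 ∧ a < Real.pi / 2))
    (hE : ∀ s, s ∈ E ↔ (s = l1 ∧ ¬ b < Real.pi / 2) ∨ (s = l2 ∧ ¬ a < Real.pi / 2))
    (hv : ∀ s ∈ M, ∃ j, h s - δ ≤ ip (u s) (x j) ∧ ∀ e ∈ E, ip (u e) (x j) ≤ h e) :
    ∃ i1 i2 : Fin n, (l1 ∈ M → h l1 - δ ≤ ip (u l1) (x i1)) ∧
      (l2 ∈ M → h l2 - δ ≤ ip (u l2) (x i2)) ∧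
      (l1 ∈ E → i1 = i2 ∧ ip (u l1) (x i1) ≤ h l1) ∧
      (l2 ∈ E → i1 = i2 ∧ ip (u l2) (x i2) ≤ h l2) := by
  by_cases ha : a < Real.pi / 2
  · obtain ⟨j2, hj2, hj2'⟩ := hv l2 ((hM l2).2 (Or.inr ⟨rfl, ha⟩))
    have e2 : l2 ∉ E := by
      rw [hE]
      rintro (⟨h1, -⟩ | ⟨-, h2⟩)
      · exact hne h1.symm
      · exact h2 ha
    by_cases hb : b < Real.pi / 2
    · obtain ⟨j1, hj1, hj1'⟩ := hv l1 ((hM l1).2 (Or.inl ⟨rfl, hb⟩))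
      have e1 : l1 ∉ E := by
        rw [hE]
        rintro (⟨-, h1⟩ | ⟨h2, -⟩)
        · exact h1 hb
        · exact hne h2
      exact ⟨j1, j2, fun _ => hj1, fun _ => hj2, fun h => absurd h e1, fun h => absurd h e2⟩
    · have m1 : l1 ∉ M := by
        rw [hM]
        rintro (⟨-, h1⟩ | ⟨h2, -⟩)
        · exact hb h1
        · exact hne h2
      exact ⟨j2, j2, fun h => absurd h m1, fun _ => hj2, fun h => ⟨rfl, hj2' l1 h⟩,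
        fun h => absurd h e2⟩
  · have hb : b < Real.pi / 2 := by
      push Not at ha
      linarith
    obtain ⟨j1, hj1, hj1'⟩ := hv l1 ((hM l1).2 (Or.inl ⟨rfl, hb⟩))
    have e1 : l1 ∉ E := by
      rw [hE]
      rintro (⟨-, h1⟩ | ⟨h2, -⟩)
      · exact h1 hb
      · exact hne h2
    have m2 : l2 ∉ M := by
      rw [hM]
      rintro (⟨h1, -⟩ | ⟨-, h2⟩)
      · exact hne h1.symm
      · exact ha h2
    exact ⟨j1, j1, fun _ => hj1, fun h => absurd h m2, fun h => absurd h e1,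
      fun h => ⟨rfl, hj1' l2 h⟩⟩

lemma mem_Mv (a b : ℝ) (s : Fin 4) :
    s ∈ Mv a b ↔ (s = 0 ∧ b < Real.pi / 2) ∨ (s = 1 ∧ a < Real.pi / 2) := by
  unfold Mv
  by_cases h1 : b < Real.pi / 2 <;> by_cases h2 : a < Real.pi / 2 <;> simp [h1, h2]

lemma mem_Ev (a b : ℝ) (s : Fin 4) :
    s ∈ Ev a b ↔ (s = 0 ∧ ¬ b < Real.pi / 2) ∨ (s = 1 ∧ ¬ a < Real.pi / 2) := by
  unfold Ev
  by_cases h1 : b < Real.pi / 2 <;> by_cases h2 : a < Real.pi / 2 <;> simp [h1, h2]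

lemma mem_Mw (a b : ℝ) (s : Fin 4) :
    s ∈ Mw a b ↔ (s = 2 ∧ b < Real.pi / 2) ∨ (s = 3 ∧ a < Real.pi / 2) := by
  unfold Mw
  by_cases h1 : b < Real.pi / 2 <;> by_cases h2 : a < Real.pi / 2 <;> simp [h1, h2]

lemma mem_Ew (a b : ℝ) (s : Fin 4) :
    s ∈ Ew a b ↔ (s = 2 ∧ ¬ b < Real.pi / 2) ∨ (s = 3 ∧ ¬ a < Real.pi / 2) := by
  unfold Ew
  by_cases h1 : b < Real.pi / 2 <;> by_cases h2 : a < Real.pi / 2 <;> simp [h1, h2]

theorem nr3 (hP : PolStatement) (hH : Hc4Statement) : Nr3Statement := by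
  intro η1 η2 ζ1 ζ2 d ρ hy hρ
  obtain ⟨δ', hδ', hc⟩ := hH η1 η2 ζ1 ζ2 d (ρ / 8) hy (by positivity)
  refine ⟨min δ' (ρ / 2), by positivity, ?_⟩
  intro n _ x hPl hv hw j
  set δ := min δ' (ρ / 2) with hδ
  have hδ1 : δ ≤ δ' := min_le_left _ _
  have hδ2 : δ ≤ ρ / 2 := min_le_right _ _
  obtain ⟨-, P2, P3, -, -⟩ := hP
  obtain ⟨i0, i1, a0, a1, b0, b1⟩ := pick x η1 η2 hy.a4 δ 0 1 (by decide) (u3 η1 η2 ζ1 ζ2)
    (h3 ζ1 ζ2 d) (Mv η1 η2) (Ev η1 η2) (mem_Mv η1 η2) (mem_Ev η1 η2) hv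
  obtain ⟨i2, i3, a2, a3, b2, b3⟩ := pick x ζ1 ζ2 hy.b4 δ 2 3 (by decide) (u3 η1 η2 ζ1 ζ2)
    (h3 ζ1 ζ2 d) (Mw ζ1 ζ2) (Ew ζ1 ζ2) (mem_Mw ζ1 ζ2) (mem_Ew ζ1 ζ2) hw
  set p : Fin 4 → ℂ := ![x i0, x i1, x i2, x i3] with hp
  have hpx : ∀ s, ∃ i, p s = x i := by
    intro s
    fin_cases s
    · exact ⟨i0, rfl⟩
    · exact ⟨i1, rfl⟩
    · exact ⟨i2, rfl⟩
    · exact ⟨i3, rfl⟩
  have key := hc p ?_ ?_ ?_ ?_
  · obtain ⟨⟨s, hs⟩, ⟨s', hs'⟩⟩ := key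
    obtain ⟨i, hi⟩ := hpx s
    obtain ⟨k, hk⟩ := hpx s'
    rw [hi] at hs
    rw [hk] at hs'
    have h1 := P2 n x i j k
    have t1 : ‖x j‖ ≤ ‖x i - x j‖ + ‖x i‖ := by
      calc ‖x j‖ = ‖x i - (x i - x j)‖ := by congr 1; ring
        _ ≤ ‖x i‖ + ‖x i - x j‖ := norm_sub_le _ _
        _ = _ := add_comm _ _
    have t2 : ‖x j - d‖ ≤ ‖x j - x k‖ + ‖x k - d‖ := by
      calc ‖x j - d‖ = ‖(x j - x k) + (x k - d)‖ := by congr 1; ring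
        _ ≤ _ := norm_add_le _ _
    have t3 : d ≤ ‖x k - x i‖ + ‖x k - d‖ + ‖x i‖ := by
      have hd : ‖(d : ℂ)‖ = d := by
        rw [Complex.norm_real, Real.norm_of_nonneg hy.dpos.le]
      calc d = ‖(d : ℂ)‖ := hd.symm
        _ = ‖((x k - x i) - (x k - d)) + x i‖ := by congr 1; ring
        _ ≤ ‖(x k - x i) - (x k - d)‖ + ‖x i‖ := norm_add_le _ _
        _ ≤ _ := by
          have := norm_sub_le (x k - x i) (x k - d)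
          linarith
    linarith
  · intro s hs
    rcases Finset.mem_union.1 hs with hs | hs
    · rcases (mem_Mv η1 η2 s).1 hs with ⟨rfl, -⟩ | ⟨rfl, -⟩
      · have := a0 hs
        have e : p 0 = x i0 := rfl
        rw [e]; linarith
      · have := a1 hs
        have e : p 1 = x i1 := rfl
        rw [e]; linarith
    · rcases (mem_Mw ζ1 ζ2 s).1 hs with ⟨rfl, -⟩ | ⟨rfl, -⟩
      · have := a2 hs
        have e : p 2 = x i2 := rfl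
        rw [e]; linarith
      · have := a3 hs
        have e : p 3 = x i3 := rfl
        rw [e]; linarith
  · intro e he
    rcases (mem_Ev η1 η2 e).1 he with ⟨rfl, -⟩ | ⟨rfl, -⟩
    · obtain ⟨h1, h2⟩ := b0 he
      exact ⟨congrArg x h1, h2⟩
    · obtain ⟨h1, h2⟩ := b1 he
      exact ⟨congrArg x h1, h2⟩
  · intro e he
    rcases (mem_Ew ζ1 ζ2 e).1 he with ⟨rfl, -⟩ | ⟨rfl, -⟩
    · obtain ⟨h1, h2⟩ := b2 he
      exact ⟨congrArg x h1, h2⟩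
    · obtain ⟨h1, h2⟩ := b3 he
      exact ⟨congrArg x h1, h2⟩
  · have := P3 n x i0 i1 i2 i3
    have e : hf p = hf ![x i0, x i1, x i2, x i3] := rfl
    rw [e]
    linarith

end Pool.Agent.XQ.K4.H34
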